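import Pool.Agent.Y742.SP.Stm
import Pool.Agent.Helper386.D5V.Helper386_FF_Fund

/-!
Project SP (helper742), job SP-TORSOR-A: charts of the Weierstrass curve.
-/

set_option autoImplicit false

namespace Pool.Agent.Y21.SP

open FF MvPolynomial Pool.Agent.W602.GT Pool.Agent.Y742.SP
open Pool.Agent.Y720.MZ (dsc)

section place

variable {Ω M : Type} [Field Ω] [Field M] [Algebra Ω M] (P : Place Ω M)

/-- zero or of positive order -/
def Pos (f : M) : Prop := f = 0 ∨ 0 < P.ord f

theorem pos_mul {f g : M} (hf : Pos P f) (hg : P.Reg g) : Pos P (f * g) := by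
  by_cases h1 : f = 0
  · left
    rw [h1, zero_mul]
  by_cases h2 : g = 0
  · left
    rw [h2, mul_zero]
  right
  rw [P.ord_mul h1 h2]
  have h3 := (P.reg_iff h2).1 hg
  have h4 := hf.resolve_left h1
  omega

theorem pos_mul' {f g : M} (hf : P.Reg f) (hg : Pos P g) : Pos P (f * g) := by
  rw [mul_comm]
  exact pos_mul P hg hf

theorem pos_add {f g : M} (hf : Pos P f) (hg : Pos P g) : Pos P (f + g) := by
  by_cases h1 : f = 0
  · rwa [h1, zero_add]
  by_cases h2 : g = 0
  · rwa [h2, add_zero]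
  by_cases h3 : f + g = 0
  · exact Or.inl h3
  right
  exact lt_of_lt_of_le (lt_min (hf.resolve_left h1) (hg.resolve_left h2)) (P.ord_add h1 h2 h3)

theorem pos_neg {f : M} (hf : Pos P f) : Pos P (-f) := by
  rcases hf with rfl | hf
  · left
    exact neg_zero
  · right
    rwa [P.ord_neg]

theorem pos_reg {f : M} (hf : Pos P f) : P.Reg f := by
  rcases hf with hf | hf
  · exact Or.inl hf
  · exact Or.inr hf.le

theorem unit_of_not_pos {f : M} (hf : P.Reg f) (h : ¬ Pos P f) : f ≠ 0 ∧ P.ord f = 0 := by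
  have h1 : f ≠ 0 := fun h0 => h (Or.inl h0)
  refine ⟨h1, ?_⟩
  have h2 := (P.reg_iff h1).1 hf
  by_contra h3
  exact h (Or.inr (lt_of_le_of_ne h2 (Ne.symm h3)))

theorem not_pos_of_unit {f : M} (h0 : f ≠ 0) (h : P.ord f = 0) : ¬ Pos P f := by
  rintro (h1 | h1)
  · exact h0 h1
  · omega

theorem unit_add {f g : M} (h0 : f ≠ 0) (h : P.ord f = 0) (hg : Pos P g) :
    f + g ≠ 0 ∧ P.ord (f + g) = 0 := by
  by_cases h2 : g = 0
  · rw [h2, add_zero]
    exact ⟨h0, h⟩
  have h3 := hg.resolve_left h2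
  have := P.ord_add_eq h0 h2 (by omega)
  exact ⟨this.1, this.2.trans h⟩

theorem unit_mul {f g : M} (h0 : f ≠ 0) (h : P.ord f = 0) (h0' : g ≠ 0) (h' : P.ord g = 0) :
    f * g ≠ 0 ∧ P.ord (f * g) = 0 :=
  ⟨mul_ne_zero h0 h0', by rw [P.ord_mul h0 h0', h, h', add_zero]⟩

theorem unit_inv {f : M} (h0 : f ≠ 0) (h : P.ord f = 0) : f⁻¹ ≠ 0 ∧ P.ord f⁻¹ = 0 :=
  ⟨inv_ne_zero h0, by rw [P.ord_inv, h, neg_zero]⟩

variable {P}

theorem triv_reg {B : IntermediateField Ω M} (hP : TrivOn P B) {z : M} (hz : z ∈ B) :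
    P.Reg z := by
  by_cases h : z = 0
  · exact Or.inl h
  · exact Or.inr (hP z hz h).ge

theorem reg_pow {f : M} (hf : P.Reg f) (n : ℕ) : P.Reg (f ^ n) := by
  induction n with
  | zero => rw [pow_zero]; exact P.reg_one
  | succ n ih => rw [pow_succ]; exact P.reg_mul ih hf

/-- multiplication of a good vector field by a unit -/
theorem good_smul {B : IntermediateField Ω M} {D : Derivation Ω M M} {r : M} (h0 : r ≠ 0)
    (h1 : P.ord r = 0) (h : GoodAt P B (r • D)) : GoodAt P B D := by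
  refine ⟨fun f hf => ?_, fun E hE => ?_⟩
  · have h2 := h.1 f hf
    have h3 : D f = r⁻¹ * (r • D) f := by
      rw [Derivation.smul_apply, smul_eq_mul, inv_mul_cancel_left₀ h0]
    rw [h3]
    exact P.reg_mul (Or.inr (unit_inv P h0 h1).2.ge) h2
  · obtain ⟨g, hg⟩ := h.2 E hE
    refine ⟨g * r, ?_⟩
    rwa [mul_smul]

theorem reg_aeval {B : IntermediateField Ω M} (hP : TrivOn P B) {a0 : M} (ha : P.Reg a0)
    (h : Polynomial B) : P.Reg (Polynomial.aeval a0 h) := by
  induction h using Polynomial.induction_on' with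
  | add p q hp hq =>
    rw [map_add]
    exact P.reg_add hp hq
  | monomial n c =>
    rw [Polynomial.aeval_monomial]
    exact P.reg_mul (triv_reg hP c.2) (reg_pow ha n)

/-- a uniformizer on which `D` is a unit -/
theorem unif [CharZero Ω] {B : IntermediateField Ω M} (hP : TrivOn P B) {D : Derivation Ω M M}
    (hD : ∀ z ∈ B, D z = 0) (hreg : DerReg P D) {a0 : M} (ha : P.Reg a0) (h0 : D a0 ≠ 0)
    (h1 : P.ord (D a0) = 0) (hx : ∃ h : Polynomial B, h ≠ 0 ∧ Pos P (Polynomial.aeval a0 h)) :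
    ∃ π : M, P.ord π = 1 ∧ D π ≠ 0 ∧ P.ord (D π) = 0 := by
  classical
  have : CharZero B := charZero_of_injective_algebraMap (algebraMap Ω B).injective
  have hx' : ∃ n : ℕ, ∃ h : Polynomial B, h ≠ 0 ∧ Pos P (Polynomial.aeval a0 h) ∧
      h.natDegree = n := by
    obtain ⟨h, h2, h3⟩ := hx
    exact ⟨_, h, h2, h3, rfl⟩
  obtain ⟨h, hh0, hhp, hhn⟩ := Nat.find_spec hx'
  have hmin : ∀ g : Polynomial B, g ≠ 0 → Pos P (Polynomial.aeval a0 g) →
      h.natDegree ≤ g.natDegree := by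
    intro g hg0 hg
    rw [hhn]
    exact Nat.find_min' hx' ⟨g, hg0, hg, rfl⟩
  have hdeg : h.natDegree ≠ 0 := by
    intro h2
    obtain ⟨c, hc⟩ := Polynomial.natDegree_eq_zero.1 h2
    have hc0 : c ≠ 0 := by
      rintro rfl
      exact hh0 (by rw [← hc, Polynomial.C_0])
    have h3 : Polynomial.aeval a0 h = (c : M) := by
      rw [← hc, Polynomial.aeval_C]
      rfl
    rw [h3] at hhp
    have hc1 : (c : M) ≠ 0 := fun h4 => hc0 (Subtype.ext h4)
    exact not_pos_of_unit P hc1 (hP _ c.2 hc1) hhp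
  have hd0 : Polynomial.derivative h ≠ 0 := fun h2 =>
    hdeg (Polynomial.derivative_eq_zero.1 h2)
  have hdn : ¬ Pos P (Polynomial.aeval a0 (Polynomial.derivative h)) := by
    intro h2
    have h3 := hmin _ hd0 h2
    have h4 := Polynomial.natDegree_derivative_lt hdeg
    omega
  obtain ⟨hu1, hu2⟩ := unit_of_not_pos P (reg_aeval hP ha _) hdn
  set u := Polynomial.aeval a0 h with hu
  have hDu : D u = Polynomial.aeval a0 (Polynomial.derivative h) * D a0 := by
    let D' : Derivation B M M := Derivation.mk'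
      { toFun := D
        map_add' := fun x y => map_add D x y
        map_smul' := fun r x => by
          show D (r • x) = r • D x
          have e : ∀ w : M, r • w = (r : M) * w := fun w => rfl
          rw [e, e, Derivation.leibniz, hD _ r.2, smul_zero, add_zero, smul_eq_mul] }
      (fun x y => D.leibniz x y)
    have h2 : D' (Polynomial.aeval a0 h) = Polynomial.aeval a0 (Polynomial.derivative h) • D' a0 :=
      D'.map_aeval h a0
    exact h2
  obtain ⟨hDu0, hDu1⟩ := unit_mul P hu1 hu2 h0 h1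
  rw [← hDu] at hDu0 hDu1
  have hu0 : u ≠ 0 := by
    intro h2
    apply hDu0
    rw [h2, map_zero]
  have hup : 0 < P.ord u := hhp.resolve_left hu0
  by_cases h2 : P.ord u = 1
  · exact ⟨u, h2, hDu0, hDu1⟩
  exfalso
  obtain ⟨t, ht0, ht⟩ := P.surj
  have hv0 : u / t ≠ 0 := div_ne_zero hu0 ht0
  have hv : P.ord (u / t) = P.ord u - 1 := by rw [P.ord_div hu0 ht0, ht]
  have e : u = (u / t) * t := (div_mul_cancel₀ u ht0).symm
  have htp : Pos P t := Or.inr (by omega)
  have hvp : Pos P (u / t) := Or.inr (by omega)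
  have h3 : D u = (u / t) * D t + t * D (u / t) := by
    conv_lhs => rw [e]
    rw [Derivation.leibniz, smul_eq_mul, smul_eq_mul]
  refine not_pos_of_unit P hDu0 hDu1 ?_
  rw [h3]
  exact pos_add P (pos_mul P hvp (hreg _ (pos_reg P htp)))
    (pos_mul P htp (hreg _ (pos_reg P hvp)))

/-- residues are algebraic -/
theorem exists_pos {B : IntermediateField Ω M} (hP : TrivOn P B) {a0 : M} (ha : P.Reg a0)
    (halg : ∀ z : M, IsAlgebraic (IntermediateField.adjoin B {a0}) z) :
    ∃ h : Polynomial B, h ≠ 0 ∧ Pos P (Polynomial.aeval a0 h) := by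
  by_contra hcon
  push Not at hcon
  have h1 : ∀ h : Polynomial B, h ≠ 0 →
      Polynomial.aeval a0 h ≠ 0 ∧ P.ord (Polynomial.aeval a0 h) = 0 := fun h hh =>
    unit_of_not_pos P (reg_aeval hP ha h) (hcon h hh)
  have h2 : ∀ f : IntermediateField.adjoin B {a0}, P.Reg (algebraMap _ M f) := by
    rintro ⟨f, hf⟩
    show P.Reg f
    obtain ⟨r, s, rfl⟩ := (IntermediateField.mem_adjoin_simple_iff B f).1 hf
    by_cases hr : r = 0
    · left
      rw [hr, map_zero, zero_div]
    by_cases hs : s = 0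
    · left
      rw [hs, map_zero, div_zero]
    right
    rw [P.ord_div (h1 r hr).1 (h1 s hs).1, (h1 r hr).2, (h1 s hs).2, sub_zero]
  have h3 : ∀ z : M, P.Reg z := fun z => P.reg_of_isIntegral h2 (halg z).isIntegral
  obtain ⟨t, ht0, ht⟩ := P.surj
  have h4 := (P.reg_iff (inv_ne_zero ht0)).1 (h3 t⁻¹)
  rw [P.ord_inv] at h4
  omega

theorem alg_all {B : IntermediateField Ω M} {X Y : M}
    (hg : IntermediateField.adjoin B {X, Y} = ⊤) (F : IntermediateField B M)
    (hX : IsAlgebraic F X) (hY : IsAlgebraic F Y) (z : M) : IsAlgebraic F z := by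
  have hz : z ∈ IntermediateField.adjoin B {X, Y} := by
    rw [hg]
    trivial
  induction hz using IntermediateField.adjoin_induction with
  | mem z hz =>
    rcases hz with rfl | hz
    · exact hX
    · rw [Set.mem_singleton_iff] at hz
      rw [hz]
      exact hY
  | algebraMap c =>
    have : algebraMap B M c = algebraMap F M (algebraMap B F c) := rfl
    rw [this]
    exact isAlgebraic_algebraMap _
  | add y z _ _ hy hz => exact hy.add hz
  | inv y _ hy => exact hy.inv
  | mul y z _ _ hy hz => exact hy.mul hz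

end place

section main

variable {Ω M : Type} [Field Ω] [CharZero Ω] [Field M] [Algebra Ω M] {P : Place Ω M}
  {B : IntermediateField Ω M} {a b c : B} {X Y : M}

theorem Y_ne (hE : Y ^ 2 = X ^ 3 + (a : M) * X ^ 2 + (b : M) * X + (c : M))
    (hX : Transcendental B X) : Y ≠ 0 := by
  intro h0
  rw [h0, zero_pow two_ne_zero] at hE
  let p : Polynomial B := .X ^ 3 + .C a * .X ^ 2 + .C b * .X + .C c
  have h2 : Polynomial.aeval X p = 0 := by
    rw [hE]
    simp [p, IntermediateField.algebraMap_apply]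
  have h3 := transcendental_iff.1 hX _ h2
  have h4 : p.coeff 3 = 1 := by
    simp [p]
  rw [h3, Polynomial.coeff_zero] at h4
  exact zero_ne_one h4

theorem D_Y {D : Derivation Ω M M} (hD : ∀ z ∈ B, D z = 0) (hDX : D X = Y) (h0 : Y ≠ 0)
    (hE : Y ^ 2 = X ^ 3 + (a : M) * X ^ 2 + (b : M) * X + (c : M)) :
    2 * D Y = 3 * X ^ 2 + 2 * (a : M) * X + (b : M) := by
  have h1 := congrArg D hE
  simp only [map_add, Derivation.leibniz, Derivation.leibniz_pow, hD _ a.2, hD _ b.2, hD _ c.2,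
    hDX, smul_eq_mul, nsmul_eq_mul, smul_zero, mul_zero, add_zero] at h1
  apply mul_right_cancel₀ h0
  push_cast at h1
  linear_combination h1

/-- the finite part of the curve -/
theorem case1 (h : SGood) (hd : dsc a b c ≠ 0)
    (hE : Y ^ 2 = X ^ 3 + (a : M) * X ^ 2 + (b : M) * X + (c : M)) (hX : Transcendental B X)
    (hg : IntermediateField.adjoin B {X, Y} = ⊤) {D : Derivation Ω M M}
    (hD : ∀ z ∈ B, D z = 0) (hDX : D X = Y) (hP : TrivOn P B) (hr : P.Reg X) :
    GoodAt P B D ∧ ∃ a0 : M, P.Reg a0 ∧ D a0 ≠ 0 ∧ P.ord (D a0) = 0 ∧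
      ∃ g : Polynomial B, g ≠ 0 ∧ Pos P (Polynomial.aeval a0 g) := by
  have : CharZero M := charZero_of_injective_algebraMap (algebraMap Ω M).injective
  have hY0 := Y_ne hE hX
  have hDY := D_Y hD hDX hY0 hE
  have ra := triv_reg hP a.2
  have rb := triv_reg hP b.2
  have rc := triv_reg hP c.2
  have r2 : (2 : M) ≠ 0 ∧ P.ord 2 = 0 := by
    have h2 : (2 : M) ≠ 0 := two_ne_zero
    refine ⟨h2, ?_⟩
    have h3 : (2 : M) ∈ B := by
      have := B.algebraMap_mem 2
      rwa [map_ofNat] at this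
    exact hP 2 h3 h2
  have hrY : P.Reg Y := by
    have h2 : P.Reg (Y ^ 2) := by
      rw [hE]
      exact P.reg_add (P.reg_add (P.reg_add (reg_pow hr 3) (P.reg_mul ra (reg_pow hr 2)))
        (P.reg_mul rb hr)) rc
    right
    have h3 := (P.reg_iff (pow_ne_zero 2 hY0)).1 h2
    rw [P.ord_pow] at h3
    push_cast at h3
    omega
  set q : M := 3 * X ^ 2 + 2 * (a : M) * X + (b : M) with hq
  have rn : ∀ n : ℕ, P.Reg (n : M) := fun n => by
    have : (n : M) = algebraMap Ω M n := by simp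
    rw [this]
    exact P.reg_const _
  have hrq : P.Reg q := by
    have h3 := rn 3
    have h2 := rn 2
    push_cast at h3 h2
    exact P.reg_add (P.reg_add (P.reg_mul h3 (reg_pow hr 2)) (P.reg_mul (P.reg_mul h2 ra) hr)) rb
  -- one of the partial derivatives is a unit
  have hun : ¬ Pos P Y ∨ ¬ Pos P q := by
    by_contra hcon
    push Not at hcon
    obtain ⟨p1, p2⟩ := hcon
    have hd1 : ((dsc a b c : B) : M) ≠ 0 := fun h2 => hd (Subtype.ext h2)
    have hd2 := hP _ (dsc a b c).2 hd1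
    refine not_pos_of_unit P hd1 hd2 ?_
    have e : ((dsc a b c : B) : M) = Y * (Y * (3 * (6 * (b : M) - 2 * (a : M) ^ 2) * X +
        2 * (a : M) * (6 * (b : M) - 2 * (a : M) ^ 2) - 3 * (9 * (c : M) - (a : M) * (b : M)))) +
        q * (-((6 * (b : M) - 2 * (a : M) ^ 2) * X ^ 2 +
          ((a : M) * (6 * (b : M) - 2 * (a : M) ^ 2) - (9 * (c : M) - (a : M) * (b : M))) * X +
          (4 * (b : M) ^ 2 - (a : M) ^ 2 * (b : M) - 3 * (a : M) * (c : M)))) := by
      have e2 : ((dsc a b c : B) : M) = dsc (a : M) (b : M) (c : M) := by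
        show B.val (dsc a b c) = _
        simp only [dsc, map_add, map_sub, map_mul, map_pow, map_ofNat]
        rfl
      rw [e2, hq]
      simp only [dsc]
      linear_combination (-(3 * (6 * (b : M) - 2 * (a : M) ^ 2) * X +
        2 * (a : M) * (6 * (b : M) - 2 * (a : M) ^ 2) - 3 * (9 * (c : M) - (a : M) * (b : M)))) * hE
    rw [e]
    let O := P.O
    have oa : (a : M) ∈ O := ra
    have ob : (b : M) ∈ O := rb
    have oc : (c : M) ∈ O := rc
    have oX : X ∈ O := hr
    have oY : Y ∈ O := hrY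
    have on : ∀ n : ℕ, (n : M) ∈ O := rn
    have o2 : (2 : M) ∈ O := by exact_mod_cast on 2
    have o3 : (3 : M) ∈ O := by exact_mod_cast on 3
    have o4 : (4 : M) ∈ O := by exact_mod_cast on 4
    have o6 : (6 : M) ∈ O := by exact_mod_cast on 6
    have o9 : (9 : M) ∈ O := by exact_mod_cast on 9
    refine pos_add P (pos_mul P p1 ?_) (pos_mul P p2 ?_)
    · show _ ∈ O
      exact mul_mem oY (sub_mem (add_mem (mul_mem (mul_mem o3 (O.sub_mem
        (mul_mem o6 ob) (mul_mem o2 (pow_mem oa 2)))) oX) (mul_mem (mul_mem o2 oa)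
        (sub_mem (mul_mem o6 ob) (mul_mem o2 (pow_mem oa 2))))) (mul_mem o3
        (sub_mem (mul_mem o9 oc) (mul_mem oa ob))))
    · show _ ∈ O
      exact neg_mem (add_mem (add_mem (mul_mem (sub_mem (mul_mem o6 ob)
        (mul_mem o2 (pow_mem oa 2))) (pow_mem oX 2)) (mul_mem (sub_mem (mul_mem oa
        (sub_mem (mul_mem o6 ob) (mul_mem o2 (pow_mem oa 2)))) (O.sub_mem
        (mul_mem o9 oc) (mul_mem oa ob))) oX)) (sub_mem (sub_mem (mul_mem o4
        (pow_mem ob 2)) (mul_mem (pow_mem oa 2) ob)) (mul_mem (mul_mem o3 oa) oc)))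
  -- the chart
  let z : Fin 2 → M := ![X, Y]
  let H : MvPolynomial (Fin 2) B := MvPolynomial.X 1 ^ 2 - (MvPolynomial.X 0 ^ 3 +
    MvPolynomial.C a * MvPolynomial.X 0 ^ 2 + MvPolynomial.C b * MvPolynomial.X 0 +
    MvPolynomial.C c)
  have e1 : aeval z (pderiv 1 H) = 2 * Y := by
    simp [z, H, pderiv_X]
  have e0 : aeval z (pderiv 0 H) = -q := by
    simp [z, H, hq, pderiv_X, IntermediateField.algebraMap_apply]
    ring
  have hch : Chart B z H P := by
    refine ⟨hP, ?_, ?_, ?_, ?_⟩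
    · simp only [H, z, map_sub, map_add, map_mul, map_pow, aeval_X, aeval_C, Matrix.cons_val_zero,
        Matrix.cons_val_one, IntermediateField.algebraMap_apply]
      rw [hE]
      ring
    · have : Set.range z = {X, Y} := by
        ext v
        simp only [Set.mem_range, Fin.exists_fin_two, Set.mem_insert_iff, Set.mem_singleton_iff]
        exact or_congr ⟨fun h => h.symm, fun h => h.symm⟩ ⟨fun h => h.symm, fun h => h.symm⟩
      rw [this]
      exact hg
    · intro i
      fin_cases i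
      · exact hr
      · exact hrY
    · rcases hun with h2 | h2
      · obtain ⟨h3, h4⟩ := unit_of_not_pos P hrY h2
        exact ⟨1, by rw [e1]; exact unit_mul P r2.1 r2.2 h3 h4⟩
      · obtain ⟨h3, h4⟩ := unit_of_not_pos P hrq h2
        refine ⟨0, ?_⟩
        rw [e0]
        exact ⟨neg_ne_zero.2 h3, by rw [P.ord_neg, h4]⟩
  have hgood : GoodAt P B ((2 : M) • D) := by
    refine h Ω M B z H P hch _ (fun w hw => ?_) ?_ ?_
    · rw [Derivation.smul_apply, hD w hw, smul_zero]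
    · rw [e1, Derivation.smul_apply, smul_eq_mul]
      show 2 * D X = 2 * Y
      rw [hDX]
    · rw [e0, Derivation.smul_apply, smul_eq_mul, neg_neg]
      exact hDY
  refine ⟨good_smul r2.1 r2.2 hgood, ?_⟩
  rcases hun with h2 | h2
  · obtain ⟨h3, h4⟩ := unit_of_not_pos P hrY h2
    refine ⟨X, hr, by rw [hDX]; exact h3, by rw [hDX]; exact h4, exists_pos hP hr ?_⟩
    have hXF : X ∈ IntermediateField.adjoin B {X} := IntermediateField.mem_adjoin_simple_self B X
    refine alg_all hg _ (isAlgebraic_algebraMap (⟨X, hXF⟩ : IntermediateField.adjoin B {X})) ?_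
    let F := IntermediateField.adjoin B {X}
    have hm : ∀ w : B, (w : M) ∈ F := fun w => F.algebraMap_mem w
    have hv : X ^ 3 + (a : M) * X ^ 2 + (b : M) * X + (c : M) ∈ F :=
      F.add_mem (F.add_mem (F.add_mem (pow_mem hXF 3) (F.mul_mem (hm a) (pow_mem hXF 2)))
        (F.mul_mem (hm b) hXF)) (hm c)
    refine ⟨.X ^ 2 - .C (⟨_, hv⟩ : F), Polynomial.X_pow_sub_C_ne_zero two_pos _, ?_⟩
    rw [map_sub, map_pow, Polynomial.aeval_X, Polynomial.aeval_C, hE]
    exact sub_self _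
  · obtain ⟨h3, h4⟩ := unit_of_not_pos P hrq h2
    have hDY0 : D Y = 2⁻¹ * q := by
      rw [← hDY, inv_mul_cancel_left₀ r2.1]
    have h5 := unit_inv P r2.1 r2.2
    have h6 := unit_mul P h5.1 h5.2 h3 h4
    rw [← hDY0] at h6
    refine ⟨Y, hrY, h6.1, h6.2, exists_pos hP hrY ?_⟩
    let F := IntermediateField.adjoin B {Y}
    have hYF : Y ∈ F := IntermediateField.mem_adjoin_simple_self B Y
    refine alg_all hg F ?_ (isAlgebraic_algebraMap (⟨Y, hYF⟩ : F))
    have hm : ∀ w : B, (w : M) ∈ F := fun w => F.algebraMap_mem w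
    have hv : (c : M) - Y ^ 2 ∈ F := F.sub_mem (hm c) (pow_mem hYF 2)
    let p : Polynomial F := .X ^ 3 + .C (⟨_, hm a⟩ : F) * .X ^ 2 + .C (⟨_, hm b⟩ : F) * .X +
      .C (⟨_, hv⟩ : F)
    refine ⟨p, ?_, ?_⟩
    · intro h7
      have h8 : p.coeff 3 = 1 := by
        simp [p]
      rw [h7, Polynomial.coeff_zero] at h8
      exact zero_ne_one h8
    · simp only [p, map_add, map_mul, map_pow, Polynomial.aeval_X, Polynomial.aeval_C]
      show X ^ 3 + (a : M) * X ^ 2 + (b : M) * X + ((c : M) - Y ^ 2) = 0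
      rw [hE]
      ring

/-- the point at infinity -/
theorem case2 (h : SGood)
    (hE : Y ^ 2 = X ^ 3 + (a : M) * X ^ 2 + (b : M) * X + (c : M)) (hX : Transcendental B X)
    (hg : IntermediateField.adjoin B {X, Y} = ⊤) {D : Derivation Ω M M}
    (hD : ∀ z ∈ B, D z = 0) (hDX : D X = Y) (hP : TrivOn P B) (hr : ¬ P.Reg X) :
    GoodAt P B D ∧ ∃ a0 : M, P.Reg a0 ∧ D a0 ≠ 0 ∧ P.ord (D a0) = 0 ∧
      ∃ g : Polynomial B, g ≠ 0 ∧ Pos P (Polynomial.aeval a0 g) := by
  have : CharZero M := charZero_of_injective_algebraMap (algebraMap Ω M).injective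
  have hY0 := Y_ne hE hX
  have hDY := D_Y hD hDX hY0 hE
  have hX0 : X ≠ 0 := fun h0 => hr (Or.inl h0)
  have hXo : P.ord X < 0 := by
    by_contra h2
    exact hr (Or.inr (not_lt.1 h2))
  have ra := triv_reg hP a.2
  have rb := triv_reg hP b.2
  have rc := triv_reg hP c.2
  have r2 : (2 : M) ≠ 0 ∧ P.ord 2 = 0 := by
    have h2 : (2 : M) ≠ 0 := two_ne_zero
    refine ⟨h2, ?_⟩
    have h3 : (2 : M) ∈ B := by
      have := B.algebraMap_mem 2
      rwa [map_ofNat] at this
    exact hP 2 h3 h2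
  have rn : ∀ n : ℕ, P.Reg (n : M) := fun n => by
    have : (n : M) = algebraMap Ω M n := by simp
    rw [this]
    exact P.reg_const _
  have pXi : Pos P X⁻¹ := Or.inr (by rw [P.ord_inv]; omega)
  have rXi := pos_reg P pXi
  -- the order of Y
  have hw1 : 1 + ((a : M) * X⁻¹ + (b : M) * X⁻¹ ^ 2 + (c : M) * X⁻¹ ^ 3) ≠ 0 ∧
      P.ord (1 + ((a : M) * X⁻¹ + (b : M) * X⁻¹ ^ 2 + (c : M) * X⁻¹ ^ 3)) = 0 := by
    refine unit_add P one_ne_zero P.ord_one ?_
    refine pos_add P (pos_add P (pos_mul' P ra pXi) (pos_mul' P rb ?_)) (pos_mul' P rc ?_)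
    · rw [pow_two]
      exact pos_mul P pXi rXi
    · rw [pow_succ]
      exact pos_mul' P (reg_pow rXi 2) pXi
  set w := 1 + ((a : M) * X⁻¹ + (b : M) * X⁻¹ ^ 2 + (c : M) * X⁻¹ ^ 3) with hw
  have hE2 : Y ^ 2 = X ^ 3 * w := by
    rw [hE, hw]
    field_simp
    ring
  have hYo : 2 * P.ord Y = 3 * P.ord X := by
    have h2 := P.ord_pow Y 2
    rw [hE2, P.ord_mul (pow_ne_zero 3 hX0) hw1.1, hw1.2, P.ord_pow] at h2
    push_cast at h2
    omega
  set s := X / Y with hs
  set r := Y⁻¹ with hrr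
  have hs0 : s ≠ 0 := div_ne_zero hX0 hY0
  have hr0 : r ≠ 0 := inv_ne_zero hY0
  have hso : 0 < P.ord s := by
    rw [hs, P.ord_div hX0 hY0]
    omega
  have hro : 0 < P.ord r := by
    rw [hrr, P.ord_inv]
    omega
  have hsr : X = s / r := by
    rw [hs, hrr]
    field_simp
  have hYr : Y = r⁻¹ := by
    rw [hrr, inv_inv]
  have hps : Pos P s := Or.inr hso
  have hpr : Pos P r := Or.inr hro
  have hrel : r = s ^ 3 + (a : M) * s ^ 2 * r + (b : M) * s * r ^ 2 + (c : M) * r ^ 3 := by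
    rw [hs, hrr]
    field_simp
    linear_combination hE
  let z : Fin 2 → M := ![s, r]
  let H : MvPolynomial (Fin 2) B := MvPolynomial.X 1 - (MvPolynomial.X 0 ^ 3 +
    MvPolynomial.C a * MvPolynomial.X 0 ^ 2 * MvPolynomial.X 1 +
    MvPolynomial.C b * MvPolynomial.X 0 * MvPolynomial.X 1 ^ 2 +
    MvPolynomial.C c * MvPolynomial.X 1 ^ 3)
  set Hr : M := 1 + (-(a : M) * s ^ 2 - 2 * (b : M) * s * r - 3 * (c : M) * r ^ 2) with hHr
  set Hs : M := -(3 * s ^ 2 + 2 * (a : M) * s * r + (b : M) * r ^ 2) with hHs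
  have e1 : aeval z (pderiv 1 H) = Hr := by
    simp [z, H, hHr, pderiv_X, IntermediateField.algebraMap_apply]
    ring
  have e0 : aeval z (pderiv 0 H) = Hs := by
    simp [z, H, hHs, pderiv_X, IntermediateField.algebraMap_apply]
    ring
  have rs := pos_reg P hps
  have rr := pos_reg P hpr
  have hHru : Hr ≠ 0 ∧ P.ord Hr = 0 := by
    refine unit_add P one_ne_zero P.ord_one ?_
    have e2 : -(a : M) * s ^ 2 - 2 * (b : M) * s * r - 3 * (c : M) * r ^ 2 =
        s * (-((a : M) * s)) + s * (-((2 : ℕ) * (b : M) * r)) + r * (-((3 : ℕ) * (c : M) * r)) := by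
      push_cast
      ring
    rw [e2]
    exact pos_add P (pos_add P (pos_mul P hps (P.reg_neg (P.reg_mul ra rs)))
      (pos_mul P hps (P.reg_neg (P.reg_mul (P.reg_mul (rn 2) rb) rr))))
      (pos_mul P hpr (P.reg_neg (P.reg_mul (P.reg_mul (rn 3) rc) rr)))
  have hch : Chart B z H P := by
    refine ⟨hP, ?_, ?_, ?_, ?_⟩
    · simp only [H, z, map_sub, map_add, map_mul, map_pow, aeval_X, aeval_C, Matrix.cons_val_zero,
        Matrix.cons_val_one, IntermediateField.algebraMap_apply]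
      exact sub_eq_zero.2 hrel
    · have : Set.range z = {s, r} := by
        ext v
        simp only [Set.mem_range, Fin.exists_fin_two, Set.mem_insert_iff, Set.mem_singleton_iff]
        exact or_congr ⟨fun h => h.symm, fun h => h.symm⟩ ⟨fun h => h.symm, fun h => h.symm⟩
      rw [this, eq_top_iff, ← hg, IntermediateField.adjoin_le_iff]
      have hs1 : s ∈ IntermediateField.adjoin B {s, r} :=
        IntermediateField.subset_adjoin _ _ (Set.mem_insert _ _)
      have hr1 : r ∈ IntermediateField.adjoin B {s, r} :=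
        IntermediateField.subset_adjoin _ _ (Set.mem_insert_of_mem _ rfl)
      rintro x (rfl | hx)
      · rw [hsr]
        exact div_mem hs1 hr1
      · rw [Set.mem_singleton_iff] at hx
        rw [hx, hYr]
        exact inv_mem hr1
    · intro i
      fin_cases i
      · exact rs
      · exact rr
    · exact ⟨1, by rw [e1]; exact hHru⟩
  -- the derivative of s
  have hDs : D s = w⁻¹ * (2⁻¹ * (-1 + ((b : M) * X⁻¹ ^ 2 + (2 : ℕ) * (c : M) * X⁻¹ ^ 3))) := by
    have h2 : s * Y = X := div_mul_cancel₀ X hY0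
    have h3 := congrArg D h2
    rw [Derivation.leibniz, smul_eq_mul, smul_eq_mul, hDX] at h3
    have h4 : Y ^ 2 * (2 * D s) = 2 * Y ^ 2 - X * (3 * X ^ 2 + 2 * (a : M) * X + (b : M)) := by
      rw [← hDY]
      linear_combination 2 * Y * h3 - 2 * D Y * h2
    have h5 : Y ^ 2 * (2 * D s) = X ^ 3 * (-1 + ((b : M) * X⁻¹ ^ 2 + (2 : ℕ) * (c : M) * X⁻¹ ^ 3)) := by
      rw [h4, hE]
      push_cast
      field_simp
      ring
    rw [hE2, mul_assoc] at h5
    have h6 := mul_left_cancel₀ (pow_ne_zero 3 hX0) h5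
    rw [← h6]
    rw [inv_mul_cancel_left₀ r2.1 |> fun e => show (2:M)⁻¹ * (w * (2 * D s)) = w * D s by
      rw [mul_left_comm, e], inv_mul_cancel_left₀ hw1.1]
  have hDsu : D s ≠ 0 ∧ P.ord (D s) = 0 := by
    have h2 := unit_inv P hw1.1 hw1.2
    have h3 := unit_inv P r2.1 r2.2
    have h4 : -1 + ((b : M) * X⁻¹ ^ 2 + (2 : ℕ) * (c : M) * X⁻¹ ^ 3) ≠ 0 ∧
        P.ord (-1 + ((b : M) * X⁻¹ ^ 2 + (2 : ℕ) * (c : M) * X⁻¹ ^ 3)) = 0 := by
      refine unit_add P (neg_ne_zero.2 one_ne_zero) P.ord_neg_one ?_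
      refine pos_add P (pos_mul' P rb ?_) (pos_mul' P (P.reg_mul (rn 2) rc) ?_)
      · rw [pow_two]
        exact pos_mul P pXi rXi
      · rw [pow_succ]
        exact pos_mul' P (reg_pow rXi 2) pXi
    have h5 := unit_mul P h3.1 h3.2 h4.1 h4.2
    rw [hDs]
    exact unit_mul P h2.1 h2.2 h5.1 h5.2
  -- the derivative of r
  have hDr : Hs * D s + Hr * D r = 0 := by
    have h1 := congrArg D hrel
    simp only [map_add, Derivation.leibniz, Derivation.leibniz_pow, hD _ a.2, hD _ b.2, hD _ c.2,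
      smul_eq_mul, nsmul_eq_mul, smul_zero, mul_zero, add_zero] at h1
    push_cast at h1
    rw [hHs, hHr]
    linear_combination h1
  have hk := unit_inv P hDsu.1 hDsu.2
  have hk2 := unit_mul P hHru.1 hHru.2 hk.1 hk.2
  have hgood : GoodAt P B ((Hr * (D s)⁻¹) • D) := by
    refine h Ω M B z H P hch _ (fun v hv => ?_) ?_ ?_
    · rw [Derivation.smul_apply, hD v hv, smul_zero]
    · rw [e1, Derivation.smul_apply, smul_eq_mul]
      show Hr * (D s)⁻¹ * D s = Hr
      rw [mul_assoc, inv_mul_cancel₀ hDsu.1, mul_one]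
    · rw [e0, Derivation.smul_apply, smul_eq_mul]
      show Hr * (D s)⁻¹ * D r = -Hs
      have h7 : Hr * D r = -Hs * D s := by linear_combination hDr
      rw [mul_right_comm, h7, mul_assoc, mul_inv_cancel₀ hDsu.1, mul_one]
  refine ⟨good_smul hk2.1 hk2.2 hgood, s, rs, hDsu.1, hDsu.2, .X, Polynomial.X_ne_zero, ?_⟩
  rw [Polynomial.aeval_X]
  exact hps

end main

/-- SP-TORSOR-A: the vector field of the Weierstrass curve is regular and without zeros. -/
def STorA : Prop := ∀ (Ω M : Type) [Field Ω] [CharZero Ω] [Field M] [Algebra Ω M]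
    (B : IntermediateField Ω M) (a b c : B) (X Y : M), dsc a b c ≠ 0 →
    Y ^ 2 = X ^ 3 + (a : M) * X ^ 2 + (b : M) * X + (c : M) → Transcendental B X →
    IntermediateField.adjoin B {X, Y} = ⊤ → ∀ D : Derivation Ω M M, (∀ z ∈ B, D z = 0) →
    D X = Y → ∀ P : Place Ω M, TrivOn P B → GoodAt P B D ∧
      (∃ a0 : M, P.Reg a0 ∧ D a0 ≠ 0 ∧ P.ord (D a0) = 0) ∧
      ∃ π : M, P.ord π = 1 ∧ D π ≠ 0 ∧ P.ord (D π) = 0

theorem torA (h : SGood) : STorA := by
  intro Ω M _ _ _ _ B a b c X Y hd hE hX hg D hD hDX P hP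
  have h1 : GoodAt P B D ∧ ∃ a0 : M, P.Reg a0 ∧ D a0 ≠ 0 ∧ P.ord (D a0) = 0 ∧
      ∃ g : Polynomial B, g ≠ 0 ∧ Pos P (Polynomial.aeval a0 g) := by
    by_cases hr : P.Reg X
    · exact case1 h hd hE hX hg hD hDX hP hr
    · exact case2 h hE hX hg hD hDX hP hr
  obtain ⟨hG, a0, h2, h3, h4, h5⟩ := h1
  exact ⟨hG, ⟨a0, h2, h3, h4⟩, unif hP hD hG.1 h2 h3 h4 h5⟩

end Pool.Agent.Y21.SP
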