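import Pool.Agent.Y21.SP.TorA
import Pool.Agent.Y109.SP.TorDef

/-!
Project SP (helper742), job SP-TORSOR-A: the form used in SP-TORSOR-B (helper109).
-/

set_option autoImplicit false

namespace Pool.Agent.Y21.SP

open FF Pool.Agent.W602.GT Pool.Agent.Y742.SP

theorem sTorA (h : SGood) : Pool.Agent.Y109.SP.STorA := by
  intro Ω M _ _ _ _ B a b c X Y D P hd hE hX hg hD hDX hP
  obtain ⟨h1, -, h3⟩ := torA h Ω M B a b c X Y hd hE hX hg D hD hDX P hP
  exact ⟨h1, h3⟩

end Pool.Agent.Y21.SP
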